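import Pool.Agent.H.MP_92a118_co.Bridge

set_option autoImplicit false

namespace Pool.Agent.Results.MP_92a118_co.Unique

open Finset Matrix

/-- integral points -/
def IsInt {κ : Type} (x : κ → ℝ) : Prop := ∀ i, ∃ n : ℤ, x i = n

/-- a lattice polytope: the convex hull of finitely many integral points -/
def IsLatPoly {κ : Type} (P : Set (κ → ℝ)) : Prop :=
  ∃ A : Set (κ → ℝ), A.Finite ∧ (∀ x ∈ A, IsInt x) ∧ P = convexHull ℝ A

/-- the affine lattice of `P`: integral points of its affine hull -/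
def latt {κ : Type} (P : Set (κ → ℝ)) : Set (κ → ℝ) := {x | x ∈ affineSpan ℝ P ∧ IsInt x}

/-- isomorphism: an affine map carrying `P` onto `Q` and the affine lattice of `P` bijectively
onto the affine lattice of `Q` -/
def Iso {κ κ' : Type} (P : Set (κ → ℝ)) (Q : Set (κ' → ℝ)) : Prop :=
  ∃ f : (κ → ℝ) →ᵃ[ℝ] (κ' → ℝ), f '' P = Q ∧ Set.BijOn f (latt P) (latt Q)

def IsReflexive {d : ℕ} (Q : Set (Fin d → ℝ)) : Prop :=
  IsLatPoly Q ∧ 0 ∈ interior Q ∧ IsLatPoly {y : Fin d → ℝ | ∀ x ∈ Q, -1 ≤ x ⬝ᵥ y}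

/-- Gorenstein of codegree `r` -/
def IsGorenstein {d : ℕ} (P : Set (Fin d → ℝ)) (r : ℕ) : Prop :=
  IsLatPoly P ∧ 1 ≤ r ∧ (∃ m, IsInt m ∧ IsReflexive ((fun x => (r : ℝ) • x - m) '' P)) ∧
    ∀ r' : ℕ, 1 ≤ r' → r' < r → ∀ m, IsInt m → m ∉ interior ((fun x => (r' : ℝ) • x) '' P)

def IsPyramid {κ : Type} (P : Set (κ → ℝ)) : Prop :=
  ∃ (n : ℕ) (Q : Set (Fin n → ℝ)), IsLatPoly Q ∧
    Iso P (convexHull ℝ (insert (Pi.single (Fin.last n) (1 : ℝ) : Fin (n + 1) → ℝ)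
      ((fun x => (Fin.snoc x 0 : Fin (n + 1) → ℝ)) '' Q)))

/-- the Cayley polytope: convex hull of the union of the `P i × {e i}` -/
def cayley {α β : Type} [DecidableEq β] (P : β → Set (α → ℝ)) : Set (α ⊕ β → ℝ) :=
  convexHull ℝ (⋃ i, (fun x => Sum.elim x (Pi.single i (1 : ℝ))) '' P i)

/-- `C s`, the Cayley polytope of the segments `[0, e i]` and `[0, -e i]` -/
def C (s : ℕ) : Set (Fin s ⊕ (Fin s ⊕ Fin s) → ℝ) :=
  cayley (Sum.elim (fun i => convexHull ℝ {0, (Pi.single i 1 : Fin s → ℝ)})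
    (fun i => convexHull ℝ {0, -(Pi.single i 1 : Fin s → ℝ)}))

open Pool.Agent.H.MP_92a118_co

lemma isInt_iff {κ : Type} (x : κ → ℝ) : IsInt x ↔ ∃ v, x = c v :=
  ⟨fun h => by choose n hn using h; exact ⟨n, funext hn⟩, by rintro ⟨v, rfl⟩ i; exact ⟨v i, rfl⟩⟩

lemma lat_iff {κ : Type} (P : Set (κ → ℝ)) :
    IsLatPoly P ↔ ∃ S : Finset (κ → ℤ), P = convexHull ℝ (c '' (S : Set (κ → ℤ))) := by
  constructor
  · rintro ⟨A, hA, h, rfl⟩
    have hf : (c ⁻¹' A).Finite := hA.preimage fun a _ b _ h => c_inj h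
    refine ⟨hf.toFinset, ?_⟩
    rw [hf.coe_toFinset, Set.image_preimage_eq_of_subset]
    intro x hx
    obtain ⟨v, rfl⟩ := (isInt_iff x).1 (h x hx)
    exact ⟨v, rfl⟩
  · rintro ⟨S, rfl⟩
    refine ⟨_, S.finite_toSet.image _, ?_, rfl⟩
    rintro _ ⟨v, -, rfl⟩
    exact (isInt_iff _).2 ⟨v, rfl⟩

lemma iso_of {κ κ' : Type} (P : Set (κ → ℝ)) (f : (κ → ℝ) →ᵃ[ℝ] (κ' → ℝ))
    (hi : Function.Injective f) (hz : ∀ x, IsInt (f x) ↔ IsInt x) : Iso P (f '' P) := by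
  refine ⟨f, rfl, ?_, hi.injOn, ?_⟩
  · rintro x ⟨h1, h2⟩
    refine ⟨?_, (hz x).2 h2⟩
    rw [← AffineSubspace.map_span]
    exact AffineSubspace.mem_map_of_mem f h1
  · rintro y ⟨h1, h2⟩
    rw [← AffineSubspace.map_span, AffineSubspace.mem_map] at h1
    obtain ⟨x, hx, rfl⟩ := h1
    exact ⟨x, ⟨hx, (hz x).1 h2⟩, rfl⟩

lemma pyr {d : ℕ} (S : Finset (Fin d → ℤ)) (p0 : Fin d → ℤ) (hp0 : p0 ∈ S) (a : ℤ)
    (y : Fin d → ℤ) (h1 : a + y ⬝ᵥ p0 = 1) (h0 : ∀ p ∈ S, p ≠ p0 → a + y ⬝ᵥ p = 0) :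
    IsPyramid (convexHull ℝ (c '' (S : Set (Fin d → ℤ)))) := by
  classical
  let f : (Fin d → ℝ) →ᵃ[ℝ] (Fin (d + 1) → ℝ) :=
    { toFun := fun x => Fin.snoc (x - (a + c y ⬝ᵥ x) • c p0) (a + c y ⬝ᵥ x)
      linear :=
        { toFun := fun x => Fin.snoc (x - (c y ⬝ᵥ x) • c p0) (c y ⬝ᵥ x)
          map_add' := fun x x' => by
            ext i
            refine Fin.lastCases ?_ (fun j => ?_) i <;> simp
            ring
          map_smul' := fun t x => by
            ext i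
            refine Fin.lastCases ?_ (fun j => ?_) i <;> simp
            ring }
      map_vadd' := fun x x' => by
        ext i
        refine Fin.lastCases ?_ (fun j => ?_) i <;> simp <;> ring }
  have hf : ∀ x, f x = Fin.snoc (x - (a + c y ⬝ᵥ x) • c p0) (a + c y ⬝ᵥ x) := fun x => rfl
  have hrec : ∀ x j, x j = f x j.castSucc + f x (Fin.last d) * p0 j := by
    intro x j
    simp [hf, c]
  let g : (Fin d → ℝ) →ₗ[ℝ] (Fin (d + 1) → ℝ) :=
    { toFun := fun x => Fin.snoc x 0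
      map_add' := fun x x' => by
        ext i
        refine Fin.lastCases ?_ (fun j => ?_) i <;> simp
      map_smul' := fun t x => by
        ext i
        refine Fin.lastCases ?_ (fun j => ?_) i <;> simp }
  refine ⟨d, convexHull ℝ (c '' ((S.erase p0 : Finset _) : Set (Fin d → ℤ))),
    (lat_iff _).2 ⟨_, rfl⟩, ?_⟩
  have key := iso_of (convexHull ℝ (c '' (S : Set (Fin d → ℤ)))) f
    (fun x x' h => funext fun j => by rw [hrec x, hrec x', h]) (fun x => ⟨fun h j => by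
      obtain ⟨n1, e1⟩ := h j.castSucc
      obtain ⟨n2, e2⟩ := h (Fin.last d)
      exact ⟨n1 + n2 * p0 j, by rw [hrec x, e1, e2]; push_cast; rfl⟩, fun h => by
      obtain ⟨v, rfl⟩ := (isInt_iff x).1 h
      intro i
      rw [hf, c_dot]
      refine Fin.lastCases ⟨a + y ⬝ᵥ v, by simp⟩
        (fun j => ⟨v j - (a + y ⬝ᵥ v) * p0 j, by simp [c]⟩) i⟩)
  convert key using 1
  change convexHull ℝ (insert _ (g '' _)) = _
  rw [LinearMap.image_convexHull, AffineMap.image_convexHull, Set.insert_eq,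
    convexHull_convexHull_union_right]
  congr 1
  have e0 : f (c p0) = Pi.single (Fin.last d) 1 := by
    have : (a : ℝ) + ((y ⬝ᵥ p0 : ℤ) : ℝ) = 1 := by exact_mod_cast h1
    rw [hf, c_dot, this]
    ext i
    refine Fin.lastCases ?_ (fun j => ?_) i <;> simp
  have e1 : ∀ p ∈ S, p ≠ p0 → f (c p) = g (c p) := by
    intro p hp hne
    have : (a : ℝ) + ((y ⬝ᵥ p : ℤ) : ℝ) = 0 := by exact_mod_cast h0 p hp hne
    rw [hf, c_dot, this, zero_smul, sub_zero]
    rfl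
  ext z
  constructor
  · rintro (h | ⟨_, ⟨p, hp, rfl⟩, rfl⟩)
    · exact ⟨_, ⟨p0, hp0, rfl⟩, e0.trans (Set.mem_singleton_iff.1 h).symm⟩
    · rw [Finset.mem_coe, Finset.mem_erase] at hp
      exact ⟨_, ⟨p, hp.2, rfl⟩, e1 p hp.2 hp.1⟩
  · rintro ⟨_, ⟨p, hp, rfl⟩, rfl⟩
    by_cases h : p = p0
    · exact Or.inl (h ▸ e0)
    · exact Or.inr ⟨_, ⟨p, Finset.mem_erase.2 ⟨h, hp⟩, rfl⟩, (e1 p hp h).symm⟩

lemma mem_C (s : ℕ) (y : Fin s ⊕ (Fin s ⊕ Fin s) → ℝ) :
    y ∈ C s ↔ ∑ k, y (.inr k) = 1 ∧ ∀ i, 0 ≤ y (.inr (.inl i)) - y (.inl i) ∧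
      0 ≤ y (.inr (.inl i)) ∧ 0 ≤ y (.inr (.inr i)) ∧ 0 ≤ y (.inr (.inr i)) + y (.inl i) := by
  constructor
  · intro h
    refine convexHull_min (s := ⋃ _, _) (t := {y : Fin s ⊕ (Fin s ⊕ Fin s) → ℝ |
      ∑ k, y (.inr k) = 1 ∧ ∀ i, 0 ≤ y (.inr (.inl i)) - y (.inl i) ∧
      0 ≤ y (.inr (.inl i)) ∧ 0 ≤ y (.inr (.inr i)) ∧ 0 ≤ y (.inr (.inr i)) + y (.inl i)}) ?_ ?_ h
    · rintro _ ⟨_, ⟨k, rfl⟩, x, hx, rfl⟩
      refine ⟨by simp, fun i => ?_⟩
      rcases k with k | k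
      · simp only [Sum.elim_inl, convexHull_pair] at hx
        obtain ⟨a, b, ha, hb, hab, rfl⟩ := hx
        by_cases e : i = k
        · subst e; simp; exact ⟨by linarith, hb⟩
        · simp [e]
      · simp only [Sum.elim_inr, convexHull_pair] at hx
        obtain ⟨a, b, ha, hb, hab, rfl⟩ := hx
        by_cases e : i = k
        · subst e; simp; exact ⟨hb, by linarith⟩
        · simp [e]
    · rintro x ⟨x1, x2⟩ z ⟨z1, z2⟩ a b ha hb hab
      refine ⟨?_, fun i => ?_⟩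
      · simp only [Pi.add_apply, Pi.smul_apply, smul_eq_mul, Finset.sum_add_distrib,
          ← Finset.mul_sum, x1, z1]
        linarith
      · obtain ⟨a1, a2, a3, a4⟩ := x2 i
        obtain ⟨b1, b2, b3, b4⟩ := z2 i
        simp only [Pi.add_apply, Pi.smul_apply, smul_eq_mul]
        refine ⟨?_, ?_, ?_, ?_⟩ <;> nlinarith [mul_nonneg ha a1, mul_nonneg ha a2,
          mul_nonneg ha a3, mul_nonneg ha a4, mul_nonneg hb b1, mul_nonneg hb b2,
          mul_nonneg hb b3, mul_nonneg hb b4]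
  · rintro ⟨h1, h2⟩
    let x : Fin s ⊕ Fin s → Fin s → ℝ := Sum.elim
      (fun i => (max (y (.inl i)) 0 / y (.inr (.inl i))) • (Pi.single i 1 : Fin s → ℝ))
      (fun i => (max (-y (.inl i)) 0 / y (.inr (.inr i))) • -(Pi.single i 1 : Fin s → ℝ))
    have seg : ∀ (v : Fin s → ℝ) (a t : ℝ), 0 ≤ t → a ≤ t →
        (max a 0 / t) • v ∈ convexHull ℝ {0, v} := by
      intro v a t ht hat
      rw [convexHull_pair]
      refine ⟨1 - max a 0 / t, max a 0 / t, ?_, div_nonneg (le_max_right _ _) ht, by ring, by simp⟩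
      rw [sub_nonneg]
      exact div_le_one_of_le₀ (max_le hat ht) ht
    have can : ∀ a t : ℝ, 0 ≤ t → a ≤ t → t * (max a 0 / t) = max a 0 := by
      intro a t ht hat
      rcases ht.eq_or_lt with h | h
      · rw [← h, max_eq_right (h ▸ hat)]; simp
      · field_simp
    have hy : y = ∑ k, y (.inr k) • Sum.elim (x k) (Pi.single k (1 : ℝ)) := by
      ext o
      rw [Finset.sum_apply]
      rcases o with i | k
      · obtain ⟨a1, a2, a3, a4⟩ := h2 i
        have b1 := can (y (.inl i)) _ a2 (by linarith)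
        have b2 := can (-y (.inl i)) _ a3 (by linarith)
        simp only [Fintype.sum_sum_type, x, Pi.smul_apply, Sum.elim_inl, Sum.elim_inr,
          Pi.neg_apply, Pi.single_apply, smul_eq_mul, mul_ite, mul_one, mul_zero, mul_neg,
          Finset.sum_neg_distrib, Finset.sum_ite_eq, Finset.mem_univ, if_true, b1, b2]
        rcases le_total (y (.inl i)) 0 with h | h
        · rw [max_eq_right h, max_eq_left (by linarith)]; ring
        · rw [max_eq_left h, max_eq_right (by linarith)]; ring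
      · simp [Pi.single_apply]
    rw [hy]
    refine (convex_convexHull ℝ _).sum_mem (fun k _ => ?_) h1 fun k _ =>
      subset_convexHull ℝ _ (Set.mem_iUnion.2 ⟨k, x k, ?_, rfl⟩)
    · rcases k with i | i
      · exact (h2 i).2.1
      · exact (h2 i).2.2.1
    · rcases k with i | i
      · exact seg _ _ _ (h2 i).2.1 (by linarith [(h2 i).1])
      · exact seg _ _ _ (h2 i).2.2.1 (by linarith [(h2 i).2.2.2])

theorem result (s d r : ℕ) (_hs : 1 ≤ s) (hd : d + 1 = 3 * s) (hr : r + s = d + 1)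
    (P : Set (Fin d → ℝ)) (hG : IsGorenstein P r) (hP : ¬ IsPyramid P) : Iso P (C s) := by
  classical
  obtain ⟨hL, hr1, ⟨m, hm, -, hint, hT⟩, -⟩ := hG
  obtain ⟨S, rfl⟩ := (lat_iff _).1 hL
  obtain ⟨T, hT⟩ := (lat_iff _).1 hT
  obtain ⟨m, rfl⟩ := (isInt_iff _).1 hm
  obtain ⟨U, nn, um, pr, du⟩ := bridge (by omega) S T r hr1 m hint hT
  have vm : ∀ v ∈ S.image (hom 1), hom (1 : ℤ) (0 : Fin d → ℤ) ⬝ᵥ v = 1 := by
    intro v hv
    obtain ⟨p, hp, rfl⟩ := Finset.mem_image.1 hv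
    simp [hom_dot]
  have hsum : ∀ l : (Option (Fin d) → ℤ) → ℝ,
      (∑ v ∈ S.image (hom 1), l v • c v) none = ∑ v ∈ S.image (hom 1), l v := by
    intro l
    rw [Finset.sum_apply]
    refine Finset.sum_congr rfl fun v hv => ?_
    obtain ⟨p, hp, rfl⟩ := Finset.mem_image.1 hv
    simp [c, hom]
  have St : Setup (S.image (hom 1)) U (hom (r : ℤ) m) (hom 1 0) := by
    refine ⟨nn, um, vm, pr, du, fun v hv u hu h1 => ?_⟩
    by_contra hc
    push Not at hc
    obtain ⟨p0, hp0, rfl⟩ := Finset.mem_image.1 hv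
    obtain ⟨a, y, rfl⟩ : ∃ a y, u = hom a y := ⟨_, _, (hom_eta u).symm⟩
    refine hP (pyr S p0 hp0 a y (by simpa [hom_dot] using h1) fun p hp hne => ?_)
    have hw := Finset.mem_image_of_mem (hom (1 : ℤ)) hp
    have e : hom a y ⬝ᵥ hom 1 p = a + y ⬝ᵥ p := by simp [hom_dot]
    obtain ⟨l, hl, he⟩ := pr (c (hom 1 p) - ((a + y ⬝ᵥ p : ℤ) : ℝ) • c (hom 1 p0)) (by
      intro u' hu'
      rw [dotProduct_sub, dotProduct_smul, c_dot, c_dot]
      by_cases h : u' = hom a y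
      · rw [h, h1, e]; simp
      · rw [hc u' hu' h]
        simpa using nn u' hu' _ hw)
    have h2 := congrFun he none
    rw [hsum] at h2
    have h3 : (1 : ℝ) - ((a + y ⬝ᵥ p : ℤ) : ℝ) = ∑ v ∈ S.image (hom 1), l v := by
      rw [← h2]; simp [c, hom]
    have h4 := Finset.sum_nonneg hl
    have h5 := nn _ hu _ hw
    rw [e] at h5
    have h6 : a + y ⬝ᵥ p ≤ 1 := by
      have : ((a + y ⬝ᵥ p : ℤ) : ℝ) ≤ 1 := by linarith
      exact_mod_cast this
    by_contra h7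
    have h8 : a + y ⬝ᵥ p = 1 := by omega
    rw [h8] at h3 he
    have h9 := (Finset.sum_eq_zero_iff_of_nonneg hl).1 (by rw [← h3]; simp)
    rw [Finset.sum_eq_zero fun v hv => by rw [h9 v hv, zero_smul], Int.cast_one, one_smul,
      sub_eq_zero] at he
    exact hne (hom_inj (c_inj he))
  obtain ⟨Φ, Ψ, h1, h2, hm', hU⟩ := St.struct s (by simp [hd]) (by
    simp only [hom_dot, one_mul, zero_dotProduct, add_zero]; omega)
  let F := Φ.map (Int.castRingHom ℝ)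
  let G := Ψ.map (Int.castRingHom ℝ)
  have h1' : F * G = 1 := by rw [← Matrix.map_mul, h1]; simp
  have h2' : G * F = 1 := by rw [← Matrix.map_mul, h2]; simp
  let f : (Fin d → ℝ) →ᵃ[ℝ] (Fin s ⊕ (Fin s ⊕ Fin s) → ℝ) :=
    { toFun := fun x => F *ᵥ hom 1 x
      linear :=
        { toFun := fun x => F *ᵥ hom 0 x
          map_add' := fun x x' => by
            rw [← Matrix.mulVec_add]; congr 1; ext o; cases o <;> simp [hom]
          map_smul' := fun t x => by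
            rw [← Matrix.mulVec_smul]; congr 1; ext o; cases o <;> simp [hom] }
      map_vadd' := fun x x' => by
        show F *ᵥ _ = F *ᵥ _ + F *ᵥ _
        rw [← Matrix.mulVec_add]; congr 1; ext o; cases o <;> simp [hom] }
  have hf : ∀ x, f x = F *ᵥ hom 1 x := fun x => rfl
  have hF : ∀ z k, (F *ᵥ z) k = c (Φ k) ⬝ᵥ z := fun z k => rfl
  have hGf : ∀ x, G *ᵥ f x = hom 1 x := fun x => by
    rw [hf, Matrix.mulVec_mulVec, h2', Matrix.one_mulVec]
  have hht : ∀ z, ∑ k, (F *ᵥ z) (.inr k) = z none := by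
    intro z
    simp only [hF]
    rw [← sum_dotProduct, ← c_sum, ← hm', c_hom]
    conv_lhs => rw [← hom_eta z, hom_dot]
    simp [c, dotProduct]
  have hadd : ∀ u v : Option (Fin d) → ℤ, c (u + v) = c u + c v := fun u v => by ext; simp [c]
  have hcone : ∀ z, (∀ u ∈ U, 0 ≤ c u ⬝ᵥ z) ↔ ∀ i,
      0 ≤ (F *ᵥ z) (.inr (.inl i)) - (F *ᵥ z) (.inl i) ∧ 0 ≤ (F *ᵥ z) (.inr (.inl i)) ∧
      0 ≤ (F *ᵥ z) (.inr (.inr i)) ∧ 0 ≤ (F *ᵥ z) (.inr (.inr i)) + (F *ᵥ z) (.inl i) := by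
    intro z
    simp only [hF, ← sub_dotProduct, ← add_dotProduct, ← c_sub, ← hadd]
    constructor
    · intro h i
      exact ⟨h _ ((hU _).2 ⟨i, by tauto⟩), h _ ((hU _).2 ⟨i, by tauto⟩),
        h _ ((hU _).2 ⟨i, by tauto⟩), h _ ((hU _).2 ⟨i, by tauto⟩)⟩
    · intro h u hu
      obtain ⟨i, e | e | e | e⟩ := (hU u).1 hu <;> rw [e]
      exacts [(h i).1, (h i).2.1, (h i).2.2.1, (h i).2.2.2]
  have hmem : ∀ x, x ∈ convexHull ℝ (c '' (S : Set (Fin d → ℤ))) ↔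
      ∀ u ∈ U, 0 ≤ c u ⬝ᵥ hom 1 x := by
    intro x
    constructor
    · intro hx u hu
      obtain ⟨a, y, rfl⟩ : ∃ a y, u = hom a y := ⟨_, _, (hom_eta u).symm⟩
      rw [c_hom, hom_dot, mul_one]
      refine hull_ineq (fun p hp => ?_) hx
      have := nn _ hu _ (Finset.mem_image_of_mem _ hp)
      rw [hom_dot, mul_one] at this
      rw [c_dot]
      exact_mod_cast this
    · intro h
      obtain ⟨l, hl, he⟩ := pr _ h
      have e := congrFun he none
      rw [hsum] at e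
      rw [Finset.sum_image (fun a _ b _ h => hom_inj h)] at e he
      refine (mem_hull _ _).2 ⟨fun p => l (hom 1 p),
        fun p hp => hl _ (Finset.mem_image_of_mem _ hp), e.symm, ?_⟩
      ext i
      have := congrFun he (some i)
      rw [Finset.sum_apply] at this ⊢
      exact this.symm
  have hint1 : ∀ {α β : Type} [Fintype β] (A : Matrix α β ℤ) (z : β → ℝ), IsInt z →
      IsInt (A.map (Int.castRingHom ℝ) *ᵥ z) := by
    intro α β _ A z hz i
    obtain ⟨v, rfl⟩ := (isInt_iff z).1 hz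
    exact ⟨A i ⬝ᵥ v, by simp [Matrix.mulVec, dotProduct, c]⟩
  have key := iso_of (convexHull ℝ (c '' (S : Set (Fin d → ℤ)))) f
    (fun x x' h => hom_inj (a := 1) (b := 1) (by rw [← hGf, ← hGf, h]))
    (fun x => ⟨fun h i => by
      have := hint1 Ψ _ h (some i)
      rwa [hGf] at this, fun h => hint1 Φ _ (by
      rintro (_ | i)
      · exact ⟨1, by simp [hom]⟩
      · exact h i)⟩)
  convert key using 1
  ext y
  rw [mem_C]
  constructor
  · rintro ⟨a1, a2⟩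
    have e1 : F *ᵥ (G *ᵥ y) = y := by rw [Matrix.mulVec_mulVec, h1', Matrix.one_mulVec]
    have e2 : hom 1 (fun i => (G *ᵥ y) (some i)) = G *ᵥ y := by
      rw [← a1, ← e1, hht, e1, hom_eta]
    refine ⟨fun i => (G *ᵥ y) (some i), (hmem _).2 ?_, by rw [hf, e2, e1]⟩
    rw [e2, hcone, e1]
    exact a2
  · rintro ⟨x, hx, rfl⟩
    rw [hf, hht]
    exact ⟨rfl, (hcone _).1 ((hmem x).1 hx)⟩

end Pool.Agent.Results.MP_92a118_co.Unique
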